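import Pool.Agent.Q191.Hopf.Defs

/-! `O[G]` is a Hopf order in `K[G]`. -/

set_option autoImplicit false

open TensorProduct

namespace Q191.Hopf

variable {O K G : Type} [CommRing O] [Field K] [Group G] [Algebra O K]

variable (O K G) in
/-- `O[G]` inside `K[G]` -/
def intCl : Set (MonoidAlgebra K G) := {z | ∀ g, z.coeff g ∈ Set.range (algebraMap O K)}

theorem single_mem_intCl (g : G) (o : O) :
    MonoidAlgebra.single g (algebraMap O K o) ∈ intCl O K G := by
  classical
  intro h
  rw [MonoidAlgebra.coeff_single, Finsupp.single_apply]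
  split_ifs
  · exact ⟨o, rfl⟩
  · exact ⟨0, map_zero _⟩

theorem add_mem_intCl {a b : MonoidAlgebra K G} (ha : a ∈ intCl O K G) (hb : b ∈ intCl O K G) :
    a + b ∈ intCl O K G := by
  intro g
  obtain ⟨x, hx⟩ := ha g
  obtain ⟨y, hy⟩ := hb g
  exact ⟨x + y, by rw [map_add, hx, hy]; rfl⟩

theorem smul_mem_intCl (o : O) {a : MonoidAlgebra K G} (ha : a ∈ intCl O K G) :
    o • a ∈ intCl O K G := by
  intro g
  obtain ⟨x, hx⟩ := ha g
  refine ⟨o * x, ?_⟩
  rw [map_mul, hx, MonoidAlgebra.coeff_smul_apply, Algebra.smul_def]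

theorem sum_mem_intCl {ι : Type} (s : Finset ι) (f : ι → MonoidAlgebra K G)
    (h : ∀ i ∈ s, f i ∈ intCl O K G) : ∑ i ∈ s, f i ∈ intCl O K G := by
  classical
  induction s using Finset.induction_on with
  | empty => intro g; exact ⟨0, by simp⟩
  | insert a s ha ih =>
    rw [Finset.sum_insert ha]
    exact add_mem_intCl (h _ (Finset.mem_insert_self _ _))
      (ih fun i hi => h i (Finset.mem_insert_of_mem hi))

/-- the elements of `O[G]` -/
theorem exists_sum {a : MonoidAlgebra K G} (ha : a ∈ intCl O K G) :
    ∃ x : G → O, a = ∑ g ∈ a.coeff.support, MonoidAlgebra.single g (algebraMap O K (x g)) := by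
  choose x hx using ha
  refine ⟨x, ?_⟩
  conv_lhs => rw [← MonoidAlgebra.sum_coeff_single a]
  rw [Finsupp.sum]
  exact Finset.sum_congr rfl fun g _ => by rw [hx]

theorem isHopfOrder_intCl [Fintype G] [IsFractionRing O K] :
    IsHopfOrder O K K (Set.univ : Set (MonoidAlgebra K G)) (intCl O K G) where
  one_mem := by
    have := single_mem_intCl (K := K) (1 : G) (1 : O)
    rwa [map_one] at this
  mul_mem := by
    intro a ha b hb
    obtain ⟨x, hx⟩ := exists_sum ha
    obtain ⟨y, hy⟩ := exists_sum hb
    rw [hx, hy, Finset.sum_mul_sum]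
    refine sum_mem_intCl _ _ fun g _ => sum_mem_intCl _ _ fun h _ => ?_
    rw [MonoidAlgebra.single_mul_single, ← map_mul]
    exact single_mem_intCl _ _
  finite := by
    classical
    refine ⟨Finset.univ.image fun g : G => MonoidAlgebra.single g (1 : K), ?_⟩
    ext a
    constructor
    · intro h
      refine Submodule.span_induction (p := fun a _ => a ∈ intCl O K G) ?_ ?_ ?_ ?_ h
      · intro z hz
        obtain ⟨g, -, rfl⟩ := Finset.mem_image.1 (Finset.mem_coe.1 hz)
        have := single_mem_intCl (K := K) g (1 : O)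
        rwa [map_one] at this
      · intro g; exact ⟨0, by simp⟩
      · intro u v _ _ hu hv; exact add_mem_intCl hu hv
      · intro o u _ hu; exact smul_mem_intCl o hu
    · intro ha
      obtain ⟨x, hx⟩ := exists_sum ha
      rw [hx]
      refine Submodule.sum_mem _ fun g _ => ?_
      have : (MonoidAlgebra.single g (algebraMap O K (x g)) : MonoidAlgebra K G) =
          x g • MonoidAlgebra.single g (1 : K) := by
        rw [MonoidAlgebra.smul_single, Algebra.smul_def, mul_one]
      rw [this]
      exact Submodule.smul_mem _ _ (Submodule.subset_span (Finset.mem_coe.2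
        (Finset.mem_image_of_mem _ (Finset.mem_univ g))))
  spans := by
    ext a
    refine ⟨fun _ => trivial, fun _ => ?_⟩
    rw [← MonoidAlgebra.sum_coeff_single a, Finsupp.sum]
    refine Submodule.sum_mem _ fun g _ => ?_
    have : (MonoidAlgebra.single g (a.coeff g) : MonoidAlgebra K G) =
        a.coeff g • MonoidAlgebra.single g (1 : K) := by
      rw [MonoidAlgebra.smul_single, smul_eq_mul, mul_one]
    rw [this]
    refine Submodule.smul_mem _ _ (Submodule.subset_span ?_)
    have := single_mem_intCl (K := K) g (1 : O)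
    rwa [map_one] at this
  comul_mem := by
    intro a ha
    obtain ⟨x, hx⟩ := exists_sum ha
    rw [hx, map_sum]
    refine sum_mem fun g _ => ?_
    refine AddSubgroup.subset_closure ⟨MonoidAlgebra.single g (algebraMap O K 1),
      single_mem_intCl _ _, MonoidAlgebra.single g (algebraMap O K (x g)), single_mem_intCl _ _, ?_⟩
    rw [MonoidAlgebra.comul_single, map_one]
    simp
  counit_mem := by
    intro a ha
    obtain ⟨x, hx⟩ := exists_sum ha
    rw [hx, map_sum]
    refine ⟨∑ g ∈ a.coeff.support, x g, ?_⟩
    rw [map_sum]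
    refine Finset.sum_congr rfl fun g _ => ?_
    rw [MonoidAlgebra.counit_single]
    simp
  antipode_mem := by
    intro a ha
    obtain ⟨x, hx⟩ := exists_sum ha
    rw [hx, map_sum]
    refine sum_mem_intCl _ _ fun g _ => ?_
    rw [MonoidAlgebra.antipode_single]
    have : HopfAlgebra.antipode K (algebraMap O K (x g)) = algebraMap O K (x g) := by simp
    rw [this]
    exact single_mem_intCl _ _

end Q191.Hopf
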