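import Mathlib

/-! Associated orders in the classical and in the canonical nonclassical Hopf-Galois structure on
a Galois extension, and the Hopf order property. -/

set_option autoImplicit false

open TensorProduct

namespace Q191.Hopf

section

variable {K L : Type} [Field K] [Field L] [Algebra K L]

/-- The classical action of the group algebra `K[G]` on `L`: `(∑ c_g g) · x = ∑ c_g g(x)`. -/
noncomputable def actCl (z : MonoidAlgebra K (L ≃ₐ[K] L)) (x : L) : L :=
  z.coeff.sum fun g c => algebraMap K L c * g x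

/-- The action of `L[λ(G)]` on `L`: `(∑ c_g λ(g)) · x = ∑ c_g λ(g)⁻¹(1_G)(x) = ∑ c_g g⁻¹(x)`.
(The element `λ(g)` is written `g`.) -/
noncomputable def actLam (h : MonoidAlgebra L (L ≃ₐ[K] L)) (x : L) : L :=
  h.coeff.sum fun g c => c * g⁻¹ x

variable (K L) in
/-- `H_λ = L[λ(G)]^G`: `g ∈ G` acts by the Galois action on the coefficients and by
`λ(x) ↦ λ(g x g⁻¹)` on group elements. -/
def Hlam : Set (MonoidAlgebra L (L ≃ₐ[K] L)) :=
  {h | ∀ g x : L ≃ₐ[K] L, g (h.coeff x) = h.coeff (g * x * g⁻¹)}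

/-- The associated order of `B` in `K[G]`. -/
def ordCl (B : Set L) : Set (MonoidAlgebra K (L ≃ₐ[K] L)) :=
  {z | ∀ x ∈ B, actCl z x ∈ B}

/-- The associated order of `B` in `H_λ`. -/
def ordLam (B : Set L) : Set (MonoidAlgebra L (L ≃ₐ[K] L)) :=
  {h | h ∈ Hlam K L ∧ ∀ x ∈ B, actLam h x ∈ B}

end

/-- The image in `R[G] ⊗ R[G]` of the tensor product of `A` with itself: the additive subgroup
generated by the `b ⊗ c` with `b, c ∈ A`. -/
noncomputable def tens {R G : Type} [Field R] [Group G] (A : Set (MonoidAlgebra R G)) :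
    AddSubgroup (MonoidAlgebra R G ⊗[R] MonoidAlgebra R G) :=
  AddSubgroup.closure {x | ∃ b ∈ A, ∃ c ∈ A, x = b ⊗ₜ[R] c}

/-- Let `H` be a `K`-form of the Hopf algebra `R[G]` (`R` a field containing `K`), for example
`H = K[G]` with `R = K`, or `H = H_λ` with `R = L`. The subset `A` of `H` is a Hopf order over
`O`: a subring containing `1`, a finitely generated `O`-module spanning `H` over `K`, with
`Δ(A) ⊆ A ⊗ A`, `ε(A) ⊆ O` and `S(A) ⊆ A`. -/
structure IsHopfOrder (O K R : Type) {G : Type} [CommRing O] [Field K] [Field R] [Group G]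
    [Algebra O R] [Algebra K R] (H A : Set (MonoidAlgebra R G)) : Prop where
  one_mem : 1 ∈ A
  mul_mem : ∀ a ∈ A, ∀ b ∈ A, a * b ∈ A
  finite : ∃ T : Finset (MonoidAlgebra R G), (Submodule.span O (T : Set (MonoidAlgebra R G)) :
    Set (MonoidAlgebra R G)) = A
  spans : (Submodule.span K A : Set (MonoidAlgebra R G)) = H
  comul_mem : ∀ a ∈ A, Coalgebra.comul (R := R) a ∈ tens A
  counit_mem : ∀ a ∈ A, Coalgebra.counit (R := R) a ∈ Set.range (algebraMap O R)
  antipode_mem : ∀ a ∈ A, HopfAlgebra.antipode R a ∈ A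

end Q191.Hopf
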