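import Mathlib

/-! The tame `S₃`-extension `L = 𝔽₄(s)` of `K = 𝔽₂(t)`, `t = s³`. -/

set_option autoImplicit false

open Polynomial

namespace Q191.Hopf

/-- the field with four elements -/
abbrev F4 : Type := GaloisField 2 2

theorem card_F4 : Nat.card F4 = 4 := by
  have := GaloisField.card 2 2 (by norm_num)
  simpa using this

noncomputable instance : Fintype F4 := Fintype.ofFinite _

theorem pow4 (x : F4) : x ^ 4 = x := by
  have h := FiniteField.pow_card x
  rwa [← Nat.card_eq_fintype_card, card_F4] at h

theorem exists_om : ∃ w : F4, w ^ 2 + w + 1 = 0 := by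
  classical
  have h : ∃ w : F4, w ≠ 0 ∧ w ≠ 1 := by
    by_contra hc
    push Not at hc
    have h1 : ∀ w : F4, w ∈ ({0, 1} : Finset F4) := by
      intro w
      by_cases hw : w = 0
      · simp [hw]
      · simp [hc w hw]
    have h2 : Fintype.card F4 ≤ 2 := by
      rw [← Finset.card_univ]
      exact (Finset.card_le_card (fun w _ => h1 w)).trans Finset.card_le_two
    rw [← Nat.card_eq_fintype_card, card_F4] at h2
    omega
  obtain ⟨w, h0, h1⟩ := h
  refine ⟨w, ?_⟩
  have h4 := pow4 w
  have h5 : w * (w - 1) * (w ^ 2 + w + 1) = 0 := by linear_combination h4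
  rcases mul_eq_zero.1 h5 with h6 | h6
  · rcases mul_eq_zero.1 h6 with h7 | h7
    · exact absurd h7 h0
    · exact absurd (sub_eq_zero.1 h7) h1
  · exact h6

/-- a primitive cube root of unity -/
noncomputable def om : F4 := exists_om.choose

theorem om_eq : om ^ 2 + om + 1 = 0 := exists_om.choose_spec

theorem om3 : om ^ 3 = 1 := by linear_combination (om - 1) * om_eq

theorem om_ne_zero : om ≠ 0 := by
  intro h
  have := om_eq
  rw [h] at this
  norm_num at this

theorem two_eq : (2 : F4) = 0 := CharTwo.two_eq_zero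

theorem om_ne_one : om ≠ 1 := by
  intro h
  have h1 := om_eq
  rw [h] at h1
  have : (1 : F4) = 0 := by linear_combination h1 - two_eq
  exact one_ne_zero this

/-- the polynomial ring `𝔽₂[t]` -/
abbrev A : Type := (ZMod 2)[X]

/-- `K = 𝔽₂(t)` -/
abbrev KK : Type := RatFunc (ZMod 2)

/-- `L = 𝔽₄(s)` -/
def LL : Type := FractionRing F4[X]

noncomputable instance : Field LL := inferInstanceAs (Field (FractionRing F4[X]))
noncomputable instance : Algebra F4[X] LL := inferInstanceAs (Algebra F4[X] (FractionRing F4[X]))
instance : IsFractionRing F4[X] LL := inferInstanceAs (IsFractionRing F4[X] (FractionRing F4[X]))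

/-- `𝔽₂[t] → 𝔽₄[s]`, `t ↦ s³` -/
noncomputable def iota : A →+* F4[X] :=
  ((expand F4 3 : F4[X] →ₐ[F4] F4[X]) : F4[X] →+* F4[X]).comp
    (mapRingHom (algebraMap (ZMod 2) F4))

theorem iota_inj : Function.Injective iota := by
  intro p q h
  have h1 : expand F4 3 (p.map (algebraMap (ZMod 2) F4)) =
    expand F4 3 (q.map (algebraMap (ZMod 2) F4)) := h
  have h2 := expand_injective (by norm_num : 0 < 3) h1
  exact Polynomial.map_injective _ (algebraMap (ZMod 2) F4).injective h2

theorem iota_X : iota X = X ^ 3 := by
  simp [iota]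

theorem al_inj : Function.Injective (algebraMap F4[X] LL) := IsFractionRing.injective _ _

noncomputable instance instAF : Algebra A F4[X] := iota.toAlgebra

theorem algebraMap_AF (p : A) : algebraMap A F4[X] p = iota p := rfl

noncomputable instance instAL : Algebra A LL := ((algebraMap F4[X] LL).comp iota).toAlgebra

instance : IsScalarTower A F4[X] LL := IsScalarTower.of_algebraMap_eq (fun _ => rfl)

theorem algebraMap_AL (p : A) : algebraMap A LL p = algebraMap F4[X] LL (iota p) := rfl

theorem AL_inj : Function.Injective (algebraMap A LL) := al_inj.comp iota_inj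

noncomputable instance instKL : Algebra KK LL :=
  (IsFractionRing.lift (A := A) (K := KK) (L := LL) (g := algebraMap A LL) AL_inj).toAlgebra

instance : IsScalarTower A KK LL := IsScalarTower.of_algebraMap_eq (fun p => by
  show _ = IsFractionRing.lift (A := A) (K := KK) (L := LL) (g := algebraMap A LL) AL_inj _
  rw [IsFractionRing.lift_algebraMap])

/-- `s ↦ ω s` on polynomials -/
noncomputable def sigP : F4[X] ≃ₐ[A] F4[X] :=
  AlgEquiv.ofRingEquiv (f := RingEquiv.ofRingHom
    ((aeval (C om * X : F4[X]) : F4[X] →ₐ[F4] F4[X]) : F4[X] →+* F4[X])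
    ((aeval (C (om ^ 2) * X : F4[X]) : F4[X] →ₐ[F4] F4[X]) : F4[X] →+* F4[X])
    (by
      ext n
      · simp
      · simp only [RingHom.coe_comp, RingHom.coe_coe, Function.comp_apply, aeval_X, map_mul,
          RingHom.id_apply]
        rw [aeval_C, Polynomial.algebraMap_eq, ← mul_assoc, ← C_mul]
        rw [show om ^ 2 * om = 1 by rw [← om3]; ring]
        simp)
    (by
      ext n
      · simp
      · simp only [RingHom.coe_comp, RingHom.coe_coe, Function.comp_apply, aeval_X, map_mul,
          RingHom.id_apply]
        rw [aeval_C, Polynomial.algebraMap_eq, ← mul_assoc, ← C_mul]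
        rw [show om * om ^ 2 = 1 by rw [← om3]; ring]
        simp))
    (by
      intro p
      show aeval (C om * X : F4[X]) (expand F4 3 (p.map (algebraMap (ZMod 2) F4))) =
        expand F4 3 (p.map (algebraMap (ZMod 2) F4))
      rw [expand_aeval, expand_eq_comp_X_pow, mul_pow, ← C_pow, om3]
      simp [Polynomial.comp, aeval_def])

theorem sigP_apply (p : F4[X]) : sigP p = p.comp (C om * X) := rfl

theorem sigP_coeff (p : F4[X]) (n : ℕ) : (sigP p).coeff n = p.coeff n * om ^ n := by
  rw [sigP_apply, comp_C_mul_X_coeff]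

/-- Frobenius on the coefficients -/
noncomputable def tauP : F4[X] ≃ₐ[A] F4[X] :=
  AlgEquiv.ofRingEquiv (f := Polynomial.mapEquiv (frobeniusEquiv F4 2))
    (by
      intro p
      show (expand F4 3 (p.map (algebraMap (ZMod 2) F4))).map (frobeniusEquiv F4 2 : F4 →+* F4) =
        expand F4 3 (p.map (algebraMap (ZMod 2) F4))
      rw [map_expand, Polynomial.map_map]
      congr 1
      congr 1
      ext a
      show frobenius F4 2 (algebraMap (ZMod 2) F4 a) = algebraMap (ZMod 2) F4 a
      rw [frobenius_def, ← map_pow, ZMod.pow_card])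

theorem tauP_coeff (p : F4[X]) (n : ℕ) : (tauP p).coeff n = (p.coeff n) ^ 2 := by
  show (p.map (frobeniusEquiv F4 2 : F4 →+* F4)).coeff n = _
  rw [coeff_map]
  rfl

end Q191.Hopf
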