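import Pool.Agent.Q191.Hopf.Main

/-! The associated order in `K[G]` is `O[G]`; the associated order in `H_λ` is not a Hopf order. -/

set_option autoImplicit false

open Polynomial TensorProduct

namespace Q191.Hopf

section gen
variable {F : Type} [Field F] (S : Subring F) {w : F}

theorem gcomb (hE : w ^ 2 + w + 1 = 0) (h2 : (2 : F) = 0) (hw : w ∈ S) (x y z : F)
    (h0 : x + y + z ∈ S) (h1 : x + y * w + z * w ^ 2 ∈ S)
    (h3 : x + y * w ^ 2 + z * w ^ 4 ∈ S) : x ∈ S ∧ y ∈ S ∧ z ∈ S := by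
  have hw3 : w ^ 3 = 1 := by linear_combination (w - 1) * hE
  refine ⟨?_, ?_, ?_⟩
  · have := S.add_mem (S.add_mem h0 h1) h3
    convert this using 1
    linear_combination (-y - z * (w ^ 2 - w + 1)) * hE - x * h2
  · have := S.add_mem (S.add_mem h0 (S.mul_mem (S.pow_mem hw 2) h1)) (S.mul_mem hw h3)
    convert this using 1
    linear_combination (-x) * hE - y * (2 * hw3 + h2) - z * (hE + (w + w ^ 2) * hw3)
  · have := S.add_mem (S.add_mem h0 (S.mul_mem hw h1)) (S.mul_mem (S.pow_mem hw 2) h3)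
    convert this using 1
    linear_combination (-x) * hE - y * (hE + w * hw3) - z * ((2 + w ^ 3) * hw3 + h2)

theorem gcomb2 (hE : w ^ 2 + w + 1 = 0) (h2 : (2 : F) = 0) (hw : w ∈ S) (x y : F)
    (h0 : x + y ∈ S) (h1 : x * w + y * w ^ 2 ∈ S) : x ∈ S ∧ y ∈ S := by
  refine ⟨?_, ?_⟩
  · have := S.add_mem (S.mul_mem (S.pow_mem hw 2) h0) h1
    convert this using 1
    linear_combination (-x) * hE + x * h2 - y * w ^ 2 * h2
  · have := S.add_mem (S.mul_mem hw h0) h1
    convert this using 1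
    linear_combination (-y) * hE + y * h2 - x * w * h2

end gen

theorem algK_OL {c : KK} (h : algebraMap KK LL c ∈ OL) : c ∈ Set.range (algebraMap A KK) := by
  have h1 : IsIntegral A (algebraMap KK LL c) := h
  have h2 : IsIntegral A c := (isIntegral_algebraMap_iff (algebraMap KK LL).injective).1 h1
  exact IsIntegrallyClosed.isIntegral_iff.1 h2

theorem actCl_eq (z : MonoidAlgebra KK GG) (x : LL) :
    actCl z x = ∑ g : GG, algebraMap KK LL (z.coeff g) * g x := by
  rw [actCl, Finsupp.sum_fintype]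
  intro g
  simp

theorem actLam_eq (h : MonoidAlgebra LL GG) (x : LL) :
    actLam h x = ∑ g : GG, h.coeff g * g⁻¹ x := by
  rw [actLam, Finsupp.sum_fintype]
  intro g
  simp

theorem intCl_sub : intCl A KK GG ⊆ ordCl OL := by
  intro z hz x hx
  rw [actCl_eq]
  have : ∀ g : GG, algebraMap KK LL (z.coeff g) * g x ∈ integralClosure A LL := by
    intro g
    obtain ⟨o, ho⟩ := hz g
    rw [← ho, ← IsScalarTower.algebraMap_apply]
    exact mul_OL (show IsIntegral A _ from isIntegral_algebraMap) (gal_OL g hx)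
  exact (integralClosure A LL).sum_mem fun g _ => this g

/-- the coefficients, in `L` -/
noncomputable def cf (z : MonoidAlgebra KK GG) (g : GG) : LL := algebraMap KK LL (z.coeff g)

theorem sig_cf (z : MonoidAlgebra KK GG) (g : GG) : sig (cf z g) = cf z g := sig.commutes _

theorem act_ws (z : MonoidAlgebra KK GG) (a b : ℕ) : actCl z (w ^ a * s ^ b) =
    s ^ b * ((cf z 1 * w ^ a + cf z tau * w ^ (2 * a)) +
      (cf z sig * w ^ a + cf z (sig * tau) * w ^ (2 * a)) * w ^ b +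
      (cf z (sig ^ 2) * w ^ a + cf z (sig ^ 2 * tau) * w ^ (2 * a)) * w ^ (2 * b)) := by
  rw [actCl_eq, sum_gal]
  have e1 : (1 : GG) (w ^ a * s ^ b) = w ^ a * s ^ b := rfl
  have e2 : tau (w ^ a * s ^ b) = w ^ (2 * a) * s ^ b := by
    rw [map_mul, map_pow, map_pow, tau_s, tau_w, ← pow_mul]
  have e3 : sig (w ^ a * s ^ b) = w ^ a * (w * s) ^ b := by
    rw [map_mul, map_pow, map_pow, sig_s, sig_w]
  have e4 : (sig * tau) (w ^ a * s ^ b) = w ^ (2 * a) * (w * s) ^ b := by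
    rw [AlgEquiv.mul_apply, e2, map_mul, map_pow, map_pow, sig_s, sig_w]
  have e5 : (sig ^ 2) (w ^ a * s ^ b) = w ^ a * (w ^ 2 * s) ^ b := by
    rw [map_mul, map_pow, map_pow, sig2_s, sig2_w]
  have e6 : (sig ^ 2 * tau) (w ^ a * s ^ b) = w ^ (2 * a) * (w ^ 2 * s) ^ b := by
    rw [AlgEquiv.mul_apply, e2, map_mul, map_pow, map_pow, sig2_s, sig2_w]
  rw [e1, e2, e3, e4, e5, e6]
  simp only [cf]
  generalize algebraMap KK LL (z.coeff 1) = c1
  generalize algebraMap KK LL (z.coeff tau) = c2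
  generalize algebraMap KK LL (z.coeff sig) = c3
  generalize algebraMap KK LL (z.coeff (sig * tau)) = c4
  generalize algebraMap KK LL (z.coeff (sig ^ 2)) = c5
  generalize algebraMap KK LL (z.coeff (sig ^ 2 * tau)) = c6
  ring

theorem key (z : MonoidAlgebra KK GG) (hz : z ∈ ordCl OL) (a b : ℕ) (hb : b ≤ 2) :
    (cf z 1 * w ^ a + cf z tau * w ^ (2 * a)) +
      (cf z sig * w ^ a + cf z (sig * tau) * w ^ (2 * a)) * w ^ b +
      (cf z (sig ^ 2) * w ^ a + cf z (sig ^ 2 * tau) * w ^ (2 * a)) * w ^ (2 * b) ∈ OL := by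
  refine desc ?_ hb ?_
  · simp only [map_add, map_mul, map_pow, sig_cf, sig_w]
  · have h := hz (w ^ a * s ^ b) (mul_OL (pow_OL w_OL a) (pow_OL s_OL b))
    rwa [act_ws] at h

theorem comb (x y z : LL) (h0 : x + y + z ∈ OL) (h1 : x + y * w + z * w ^ 2 ∈ OL)
    (h2 : x + y * w ^ 2 + z * w ^ 4 ∈ OL) : x ∈ OL ∧ y ∈ OL ∧ z ∈ OL :=
  gcomb (integralClosure A LL).toSubring w_eq two_L w_OL x y z h0 h1 h2

theorem comb2 (x y : LL) (h0 : x + y ∈ OL) (h1 : x * w + y * w ^ 2 ∈ OL) : x ∈ OL ∧ y ∈ OL :=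
  gcomb2 (integralClosure A LL).toSubring w_eq two_L w_OL x y h0 h1

theorem k0 (z : MonoidAlgebra KK GG) (hz : z ∈ ordCl OL) :
    cf z 1 + cf z tau ∈ OL ∧ cf z sig + cf z (sig * tau) ∈ OL ∧
      cf z (sig ^ 2) + cf z (sig ^ 2 * tau) ∈ OL := by
  have h0 := key z hz 0 0 (by norm_num)
  have h1 := key z hz 0 1 (by norm_num)
  have h2 := key z hz 0 2 (by norm_num)
  simp only [mul_zero, pow_zero, mul_one, pow_one] at h0 h1 h2
  exact comb _ _ _ h0 h1 h2

theorem k1 (z : MonoidAlgebra KK GG) (hz : z ∈ ordCl OL) :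
    cf z 1 * w + cf z tau * w ^ 2 ∈ OL ∧ cf z sig * w + cf z (sig * tau) * w ^ 2 ∈ OL ∧
      cf z (sig ^ 2) * w + cf z (sig ^ 2 * tau) * w ^ 2 ∈ OL := by
  have h0 := key z hz 1 0 (by norm_num)
  have h1 := key z hz 1 1 (by norm_num)
  have h2 := key z hz 1 2 (by norm_num)
  simp only [mul_zero, pow_zero, mul_one, pow_one] at h0 h1 h2
  exact comb _ _ _ h0 h1 h2

theorem sub_intCl : ordCl OL ⊆ intCl A KK GG := by
  intro z hz
  have h0 := k0 z hz
  have h1 := k1 z hz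
  have f1 := comb2 _ _ h0.1 h1.1
  have f2 := comb2 _ _ h0.2.1 h1.2.1
  have f3 := comb2 _ _ h0.2.2 h1.2.2
  intro g
  refine algK_OL ?_
  show cf z g ∈ OL
  rcases gal_list g with h | h | h | h | h | h
  · rw [h]; exact f1.1
  · rw [h]; exact f2.1
  · rw [h]; exact f3.1
  · rw [h]; exact f1.2
  · rw [h]; exact f2.2
  · rw [h]; exact f3.2

theorem ordCl_eq : ordCl OL = intCl A KK GG := Set.Subset.antisymm sub_intCl intCl_sub

end Q191.Hopf
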