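import Pool.Agent.Q191.Hopf.Field

/-! The Galois group of `𝔽₄(s) / 𝔽₂(s³)`. -/

set_option autoImplicit false

open Polynomial

namespace Q191.Hopf

/-- `s` -/
noncomputable def s : LL := algebraMap F4[X] LL X

/-- `ω` -/
noncomputable def w : LL := algebraMap F4[X] LL (C om)

/-- the automorphism `s ↦ ω s` -/
noncomputable def sig : LL ≃ₐ[KK] LL := IsFractionRing.fieldEquivOfAlgEquiv KK LL LL sigP

/-- the Frobenius automorphism -/
noncomputable def tau : LL ≃ₐ[KK] LL := IsFractionRing.fieldEquivOfAlgEquiv KK LL LL tauP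

theorem sig_al (p : F4[X]) : sig (algebraMap F4[X] LL p) = algebraMap F4[X] LL (sigP p) :=
  IsFractionRing.fieldEquivOfAlgEquiv_algebraMap KK LL LL sigP p

theorem tau_al (p : F4[X]) : tau (algebraMap F4[X] LL p) = algebraMap F4[X] LL (tauP p) :=
  IsFractionRing.fieldEquivOfAlgEquiv_algebraMap KK LL LL tauP p

theorem s_ne : s ≠ 0 := by
  intro h
  have : (X : F4[X]) = 0 := al_inj (by rw [map_zero]; exact h)
  exact X_ne_zero this

theorem w_eq : w ^ 2 + w + 1 = 0 := by
  have := congrArg (fun x => algebraMap F4[X] LL (C x)) om_eq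
  simpa [w] using this

theorem w3 : w ^ 3 = 1 := by linear_combination (w - 1) * w_eq

theorem two_L : (2 : LL) = 0 := by
  have h : algebraMap F4[X] LL (C (2 : F4)) = (2 : LL) := by
    rw [show (C (2 : F4) : F4[X]) = ((2 : ℕ) : F4[X]) by rw [← Polynomial.C_eq_natCast]; norm_num,
      map_natCast]; norm_num
  rw [← h, two_eq]; simp

theorem w_ne : w ≠ 0 := by
  intro h
  have := w3
  rw [h] at this
  norm_num at this

theorem w_ne_one : w ≠ 1 := by
  intro h
  have h1 := w_eq
  rw [h] at h1
  have : (1 : LL) = 0 := by linear_combination h1 - two_L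
  exact one_ne_zero this

theorem sig_s : sig s = w * s := by
  rw [s, sig_al, sigP_apply, X_comp, map_mul]; rfl

theorem sig_w : sig w = w := by
  rw [w, sig_al, sigP_apply, C_comp]

theorem tau_s : tau s = s := by
  rw [s, tau_al]
  congr 1
  ext n
  rw [tauP_coeff, coeff_X]
  split_ifs <;> simp

theorem tau_w : tau w = w ^ 2 := by
  rw [w, tau_al, ← map_pow]
  congr 1
  ext n
  rw [tauP_coeff, ← C_pow, coeff_C, coeff_C]
  split_ifs <;> simp

/-- `t` as an element of `K` -/
noncomputable def t : KK := algebraMap A KK X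

theorem s3 : s ^ 3 = algebraMap KK LL t := by
  rw [t, ← IsScalarTower.algebraMap_apply, algebraMap_AL, iota_X, map_pow]; rfl

theorem F4_cases (c : F4) : c = 0 ∨ c = 1 ∨ c = om ∨ c = om ^ 2 := by
  have h := pow4 c
  have h1 : c * ((c - 1) * ((c - om) * (c - om ^ 2))) = 0 := by
    linear_combination h + c * (c - 1) * (-c + om - 1) * om_eq
  rcases mul_eq_zero.1 h1 with h2 | h2
  · exact Or.inl h2
  rcases mul_eq_zero.1 h2 with h3 | h3
  · exact Or.inr (Or.inl (sub_eq_zero.1 h3))
  rcases mul_eq_zero.1 h3 with h4 | h4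
  · exact Or.inr (Or.inr (Or.inl (sub_eq_zero.1 h4)))
  · exact Or.inr (Or.inr (Or.inr (sub_eq_zero.1 h4)))

theorem al_mem (M : IntermediateField KK LL) (hs : s ∈ M) (hw : w ∈ M) (p : F4[X]) :
    algebraMap F4[X] LL p ∈ M := by
  have hC : ∀ c : F4, algebraMap F4[X] LL (C c) ∈ M := by
    intro c
    rcases F4_cases c with h | h | h | h
    · rw [h]; simp
    · rw [h]; simp
    · rw [h]; exact hw
    · rw [h, C_pow, map_pow]; exact pow_mem hw 2
  induction p using Polynomial.induction_on' with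
  | add p q hp hq => rw [map_add]; exact add_mem hp hq
  | monomial n c =>
    rw [← C_mul_X_pow_eq_monomial, map_mul, map_pow]
    exact mul_mem (hC c) (pow_mem hs n)

theorem eq_top_of_mem (M : IntermediateField KK LL) (hs : s ∈ M) (hw : w ∈ M) : M = ⊤ := by
  rw [eq_top_iff]
  intro x _
  obtain ⟨p, q, -, rfl⟩ := IsFractionRing.div_surjective (A := F4[X]) x
  exact div_mem (al_mem M hs hw p) (al_mem M hs hw q)

theorem split_id : ((X ^ 3 - C t : KK[X]).map (algebraMap KK LL)) =
    (X - C s) * ((X - C (w * s)) * (X - C (w ^ 2 * s))) := by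
  rw [Polynomial.map_sub, Polynomial.map_pow, map_X, map_C, ← s3]
  have h1 : (C w : LL[X]) ^ 2 + C w + 1 = 0 := by
    rw [← C_pow, ← C_add, ← C_1, ← C_add, w_eq, C_0]
  simp only [C_mul, C_pow]
  linear_combination (-(X - C s) * (-(C s) * X + (C w - 1) * (C s) ^ 2)) * h1

theorem w_dist : w ≠ w ^ 2 := by
  intro h
  have : w * (w - 1) = 0 := by linear_combination -h
  rcases mul_eq_zero.1 this with h1 | h1
  · exact w_ne h1
  · exact w_ne_one (sub_eq_zero.1 h1)

instance isSplit : IsSplittingField KK LL (X ^ 3 - C t : KK[X]) := by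
  rw [isSplittingField_iff_intermediateField]
  constructor
  · rw [split_id]
    exact (Splits.X_sub_C s).mul ((Splits.X_sub_C _).mul (Splits.X_sub_C _))
  · have hp0 : (X ^ 3 - C t : KK[X]) ≠ 0 := (monic_X_pow_sub_C t (by norm_num)).ne_zero
    have hs : s ∈ (X ^ 3 - C t : KK[X]).rootSet LL := by
      rw [mem_rootSet]
      refine ⟨hp0, ?_⟩
      simp [s3]
    have hws : w * s ∈ (X ^ 3 - C t : KK[X]).rootSet LL := by
      rw [mem_rootSet]
      refine ⟨hp0, ?_⟩
      simp [mul_pow, w3, s3]
    have h1 := IntermediateField.subset_adjoin KK _ hs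
    have h2 := IntermediateField.subset_adjoin KK _ hws
    have h3 : w ∈ IntermediateField.adjoin KK ((X ^ 3 - C t : KK[X]).rootSet LL) := by
      have := div_mem h2 h1
      rwa [mul_div_assoc, div_self s_ne, mul_one] at this
    exact eq_top_of_mem _ h1 h3

instance : FiniteDimensional KK LL := IsSplittingField.finiteDimensional LL (X ^ 3 - C t : KK[X])

theorem t_ne : t ≠ 0 := by
  intro h
  have := s3
  rw [h, map_zero] at this
  exact s_ne (pow_eq_zero_iff (by norm_num) |>.1 this)

instance isGal : IsGalois KK LL := by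
  refine IsGalois.of_separable_splitting_field (p := (X ^ 3 - C t : KK[X])) ?_
  refine separable_X_pow_sub_C t ?_ t_ne
  have h : ((3 : ℕ) : KK) = algebraMap (ZMod 2) KK ((3 : ℕ) : ZMod 2) := (map_natCast _ 3).symm
  rw [h]
  intro h0
  have h1 : ((3 : ℕ) : ZMod 2) = 0 := (algebraMap (ZMod 2) KK).injective (by rw [h0, map_zero])
  exact absurd h1 (by decide)

/-- An automorphism of `L / K` is determined by the images of `s` and `ω`. -/
theorem ext_gal {g h : LL ≃ₐ[KK] LL} (hs : g s = h s) (hw : g w = h w) : g = h := by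
  let M : IntermediateField KK LL :=
    { AlgHom.equalizer (g : LL →ₐ[KK] LL) (h : LL →ₐ[KK] LL) with
      inv_mem' := by
        intro x hx
        have hx' : g x = h x := hx
        show g x⁻¹ = h x⁻¹
        rw [map_inv₀, map_inv₀, hx'] }
  have hM : M = ⊤ := eq_top_of_mem M hs hw
  ext x
  have : x ∈ M := by rw [hM]; trivial
  exact this

theorem cube_root {x : LL} (h : x ^ 3 = 1) : x = 1 ∨ x = w ∨ x = w ^ 2 := by
  have h1 : (x - 1) * ((x - w) * (x - w ^ 2)) = 0 := by
    linear_combination h + (x - 1) * (-x + w - 1) * w_eq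
  rcases mul_eq_zero.1 h1 with h3 | h3
  · exact Or.inl (sub_eq_zero.1 h3)
  rcases mul_eq_zero.1 h3 with h4 | h4
  · exact Or.inr (Or.inl (sub_eq_zero.1 h4))
  · exact Or.inr (Or.inr (sub_eq_zero.1 h4))

theorem gal_cases (g : LL ≃ₐ[KK] LL) : (g s = s ∨ g s = w * s ∨ g s = w ^ 2 * s) ∧
    (g w = w ∨ g w = w ^ 2) := by
  constructor
  · have h : (g s / s) ^ 3 = 1 := by
      rw [div_pow, ← map_pow, s3, AlgEquiv.commutes, ← s3, div_self (pow_ne_zero 3 s_ne)]
    rcases cube_root h with h1 | h1 | h1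
    · left; rw [div_eq_iff s_ne] at h1; rw [h1, one_mul]
    · right; left; rw [div_eq_iff s_ne] at h1; rw [h1]
    · right; right; rw [div_eq_iff s_ne] at h1; rw [h1]
  · have h : (g w) ^ 3 = 1 := by rw [← map_pow, w3, map_one]
    rcases cube_root h with h1 | h1 | h1
    · exfalso
      have : w = 1 := g.injective (by rw [h1, map_one])
      exact w_ne_one this
    · exact Or.inl h1
    · exact Or.inr h1

theorem gal_list (g : LL ≃ₐ[KK] LL) : g = 1 ∨ g = sig ∨ g = sig ^ 2 ∨ g = tau ∨
    g = sig * tau ∨ g = sig ^ 2 * tau := by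
  have e1 : (sig ^ 2) s = w ^ 2 * s := by
    rw [pow_two, AlgEquiv.mul_apply, sig_s, map_mul, sig_w, sig_s]; ring
  have e2 : (sig ^ 2) w = w := by
    rw [pow_two, AlgEquiv.mul_apply, sig_w, sig_w]
  obtain ⟨h1 | h1 | h1, h2 | h2⟩ := gal_cases g
  · left; exact ext_gal (by rw [h1]; rfl) (by rw [h2]; rfl)
  · right; right; right; left
    exact ext_gal (by rw [h1, tau_s]) (by rw [h2, tau_w])
  · right; left
    exact ext_gal (by rw [h1, sig_s]) (by rw [h2, sig_w])
  · right; right; right; right; left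
    exact ext_gal (by rw [h1, AlgEquiv.mul_apply, tau_s, sig_s])
      (by rw [h2, AlgEquiv.mul_apply, tau_w, map_pow, sig_w])
  · right; right; left
    exact ext_gal (by rw [h1, e1]) (by rw [h2, e2])
  · right; right; right; right; right
    exact ext_gal (by rw [h1, AlgEquiv.mul_apply, tau_s, e1])
      (by rw [h2, AlgEquiv.mul_apply, tau_w, map_pow, e2])

end Q191.Hopf
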