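import Pool.Agent.Q191.Hopf.Fin

/-! The associated order in `H_λ` is not a Hopf order. -/

set_option autoImplicit false

open Polynomial TensorProduct

namespace Q191.Hopf

/-- the coefficients of the element `h₀ = ∑ σ^i(s⁻¹) λ(σ^i τ σ^{-i})` -/
noncomputable def c0 (x : GG) : LL := by classical exact if x w = w then 0 else x s / s ^ 2

theorem c0_of_eq {x : GG} (h : x w = w) : c0 x = 0 := by rw [c0, if_pos h]

theorem c0_of_ne {x : GG} (h : x w ≠ w) : c0 x = x s / s ^ 2 := by rw [c0, if_neg h]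

/-- the element `h₀` -/
noncomputable def h0 : MonoidAlgebra LL GG := ∑ x : GG, MonoidAlgebra.single x (c0 x)

theorem h0_coeff (x : GG) : h0.coeff x = c0 x := by
  classical
  rw [h0, MonoidAlgebra.coeff_sum, Finsupp.finsetSum_apply]
  simp only [MonoidAlgebra.coeff_single, Finsupp.single_apply]
  rw [Finset.sum_ite_eq' Finset.univ x c0]
  simp

theorem conj_w (g x : GG) : (g * x * g⁻¹) w = x w := by
  have hg : g⁻¹ w = w ∨ g⁻¹ w = w ^ 2 := (gal_cases g⁻¹).2
  have hg' : g w = w ∨ g w = w ^ 2 := (gal_cases g).2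
  have hx : x w = w ∨ x w = w ^ 2 := (gal_cases x).2
  have hgg : g (g⁻¹ w) = w := by
    rw [← AlgEquiv.mul_apply, mul_inv_cancel]; rfl
  rw [AlgEquiv.mul_apply, AlgEquiv.mul_apply]
  have w4 : (w ^ 2) ^ 2 = w := by
    rw [← pow_mul]
    have : w ^ (2 * 2) = w ^ 3 * w := by rw [← pow_succ]
    rw [this, w3, one_mul]
  rcases hx with h | h
  · have : x (g⁻¹ w) = g⁻¹ w := by
      rcases hg with h1 | h1
      · rw [h1, h]
      · rw [h1, map_pow, h]
    rw [this, hgg, h]
  · have : x (g⁻¹ w) = (g⁻¹ w) ^ 2 := by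
      rcases hg with h1 | h1
      · rw [h1, h]
      · rw [h1, map_pow, h]
    rw [this, map_pow, hgg, h]

theorem h0_Hlam : h0 ∈ Hlam KK LL := by
  intro g x
  rw [h0_coeff, h0_coeff]
  by_cases hx : x w = w
  · rw [c0_of_eq hx, c0_of_eq (by rw [conj_w, hx]), map_zero]
  · have hx2 : x w = w ^ 2 := ((gal_cases x).2).resolve_left hx
    rw [c0_of_ne hx, c0_of_ne (by rw [conj_w]; exact hx)]
    have hgg : g (g⁻¹ s) = s := by
      rw [← AlgEquiv.mul_apply, mul_inv_cancel]; rfl
    obtain ⟨u, hu, hxu⟩ : ∃ u : LL, g⁻¹ s = u * s ∧ x u = u ^ 2 := by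
      rcases (gal_cases g⁻¹).1 with h | h | h
      · exact ⟨1, by rw [h, one_mul], by rw [map_one, one_pow]⟩
      · exact ⟨w, h, hx2⟩
      · exact ⟨w ^ 2, h, by rw [map_pow, hx2]⟩
    rw [AlgEquiv.mul_apply, AlgEquiv.mul_apply, hu, map_mul, hxu, map_mul, map_pow, map_div₀,
      map_pow]
    have h1 : g u * g s = s := by rw [← map_mul, ← hu, hgg]
    have hgs : g s ≠ 0 := by
      intro h
      rw [h, mul_zero] at h1
      exact s_ne h1.symm
    have hs := s_ne
    rw [div_eq_div_iff (pow_ne_zero 2 hgs) (pow_ne_zero 2 hs)]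
    have h2 : (g u * g s) ^ 2 = s ^ 2 := by rw [h1]
    generalize g u = a at *
    generalize g s = b at *
    generalize g (x s) = d at *
    linear_combination (-d) * h2

theorem one_w : (1 : GG) w = w := rfl

theorem tau_w_ne : tau w ≠ w := by rw [tau_w]; exact w_dist.symm

theorem st_w : (sig * tau) w = w ^ 2 := by rw [AlgEquiv.mul_apply, tau_w, map_pow, sig_w]

theorem sst_w : (sig ^ 2 * tau) w = w ^ 2 := by rw [AlgEquiv.mul_apply, tau_w, map_pow, sig2_w]

theorem st_s : (sig * tau) s = w * s := by rw [AlgEquiv.mul_apply, tau_s, sig_s]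

theorem sst_s : (sig ^ 2 * tau) s = w ^ 2 * s := by rw [AlgEquiv.mul_apply, tau_s, sig2_s]

theorem c0_one : c0 1 = 0 := c0_of_eq rfl
theorem c0_sig : c0 sig = 0 := c0_of_eq sig_w
theorem c0_sig2 : c0 (sig ^ 2) = 0 := c0_of_eq sig2_w
theorem c0_tau : c0 tau = s⁻¹ := by
  rw [c0_of_ne tau_w_ne, tau_s, pow_two]
  have := s_ne
  field_simp
theorem c0_st : c0 (sig * tau) = w * s⁻¹ := by
  rw [c0_of_ne (by rw [st_w]; exact w_dist.symm), st_s, pow_two]
  have := s_ne
  field_simp
theorem c0_sst : c0 (sig ^ 2 * tau) = w ^ 2 * s⁻¹ := by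
  rw [c0_of_ne (by rw [sst_w]; exact w_dist.symm), sst_s, pow_two]
  have := s_ne
  field_simp

theorem w4 : (w ^ 2) ^ 2 = w := by
  rw [← pow_mul]
  have : w ^ (2 * 2) = w ^ 3 * w := by rw [← pow_succ]
  rw [this, w3, one_mul]

theorem inv_of_mul {a b : GG} (h1 : (a * b) s = s) (h2 : (a * b) w = w) : a⁻¹ = b :=
  inv_eq_of_mul_eq_one_right (ext_gal (h := 1) (by rw [h1]; rfl) (by rw [h2]; rfl))

theorem inv_tau : tau⁻¹ = tau := by
  apply inv_of_mul
  · rw [AlgEquiv.mul_apply, tau_s, tau_s]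
  · rw [AlgEquiv.mul_apply, tau_w, map_pow, tau_w, w4]

theorem w_mul_w2 : w * w ^ 2 = 1 := by rw [← pow_succ', w3]

theorem inv_st : (sig * tau)⁻¹ = sig * tau := by
  apply inv_of_mul
  · rw [AlgEquiv.mul_apply, st_s, map_mul, st_s, st_w, ← mul_assoc, mul_comm (w ^ 2) w, w_mul_w2,
      one_mul]
  · rw [AlgEquiv.mul_apply, st_w, map_pow, st_w, w4]

theorem inv_sst : (sig ^ 2 * tau)⁻¹ = sig ^ 2 * tau := by
  apply inv_of_mul
  · rw [AlgEquiv.mul_apply, sst_s, map_mul, sst_s, map_pow, sst_w, w4, ← mul_assoc, w_mul_w2,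
      one_mul]
  · rw [AlgEquiv.mul_apply, sst_w, map_pow, sst_w, w4]

theorem inv_sig : sig⁻¹ = sig ^ 2 := by
  apply inv_of_mul
  · rw [AlgEquiv.mul_apply, sig2_s, map_mul, map_pow, sig_w, sig_s, ← mul_assoc,
      mul_comm (w ^ 2) w, w_mul_w2, one_mul]
  · rw [AlgEquiv.mul_apply, sig2_w, sig_w]

theorem inv_sig2 : (sig ^ 2)⁻¹ = sig := by rw [← inv_sig, inv_inv]

/-- the action of `h₀` -/
theorem act_h0 (x : LL) : actLam h0 x =
    s⁻¹ * (tau x + w * (sig * tau) x + w ^ 2 * (sig ^ 2 * tau) x) := by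
  rw [actLam_eq, sum_gal]
  simp only [h0_coeff, c0_one, c0_sig, c0_sig2, c0_tau, c0_st, c0_sst, inv_tau, inv_st, inv_sst]
  generalize tau x = a
  generalize (sig * tau) x = b
  generalize (sig ^ 2 * tau) x = c
  ring

theorem act_mono (c : F4) (n : ℕ) :
    tau (algebraMap F4[X] LL (C c) * s ^ n) + w * (sig * tau) (algebraMap F4[X] LL (C c) * s ^ n) +
      w ^ 2 * (sig ^ 2 * tau) (algebraMap F4[X] LL (C c) * s ^ n) =
    (algebraMap F4[X] LL (C c)) ^ 2 * s ^ n * (1 + w ^ (n + 1) + w ^ (2 * (n + 1))) := by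
  have e1 : tau (algebraMap F4[X] LL (C c)) = (algebraMap F4[X] LL (C c)) ^ 2 := by
    rw [tau_al, ← map_pow]
    congr 1
    ext n
    rw [tauP_coeff, ← C_pow, coeff_C, coeff_C]
    split_ifs <;> simp
  have e2 : ∀ c : F4, sig (algebraMap F4[X] LL (C c)) = algebraMap F4[X] LL (C c) := by
    intro c
    rw [sig_al, sigP_apply, C_comp]
  have e3 : (sig * tau) (algebraMap F4[X] LL (C c)) = (algebraMap F4[X] LL (C c)) ^ 2 := by
    rw [AlgEquiv.mul_apply, e1, map_pow, e2]
  have e4 : (sig ^ 2 * tau) (algebraMap F4[X] LL (C c)) = (algebraMap F4[X] LL (C c)) ^ 2 := by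
    rw [AlgEquiv.mul_apply, e1, map_pow, pow_two sig, AlgEquiv.mul_apply, e2, e2]
  rw [map_mul, map_mul, map_mul, map_pow, map_pow, map_pow, e1, e3, e4, tau_s, st_s, sst_s]
  generalize algebraMap F4[X] LL (C c) = k
  generalize w = v
  generalize s = r
  ring

theorem h0_int (x : LL) (hx : x ∈ OL) : actLam h0 x ∈ OL := by
  obtain ⟨p, rfl⟩ := mem_OL_iff.1 hx
  rw [act_h0]
  clear hx
  induction p using Polynomial.induction_on' with
  | add p q hp hq =>
    have := add_OL hp hq
    rw [map_add, map_add, map_add, map_add]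
    convert this using 1
    generalize tau (algebraMap F4[X] LL p) = a1
    generalize tau (algebraMap F4[X] LL q) = a2
    generalize (sig * tau) (algebraMap F4[X] LL p) = a3
    generalize (sig * tau) (algebraMap F4[X] LL q) = a4
    generalize (sig ^ 2 * tau) (algebraMap F4[X] LL p) = a5
    generalize (sig ^ 2 * tau) (algebraMap F4[X] LL q) = a6
    generalize w = v
    generalize s = r
    ring
  | monomial n c =>
    rw [← C_mul_X_pow_eq_monomial, map_mul, map_pow]
    have hk : algebraMap F4[X] LL (C c) ∈ OL := mem_OL_iff.2 ⟨_, rfl⟩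
    have h1 := act_mono c n
    rw [show (algebraMap F4[X] LL X) = s from rfl, h1]
    rcases n with _ | n
    · have h2 : (1 : LL) + w ^ (0 + 1) + w ^ (2 * (0 + 1)) = 0 := by
        have := w_eq
        rw [zero_add, pow_one, mul_one]
        rw [← this, add_comm, add_assoc, add_comm 1 w]
      rw [h2, mul_zero, mul_zero]
      exact zero_OL
    · have h3 : s⁻¹ * ((algebraMap F4[X] LL (C c)) ^ 2 * s ^ (n + 1) *
          (1 + w ^ (n + 1 + 1) + w ^ (2 * (n + 1 + 1)))) =
          (algebraMap F4[X] LL (C c)) ^ 2 * s ^ n * (1 + w ^ (n + 1 + 1) +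
            w ^ (2 * (n + 1 + 1))) := by
        have hs := s_ne
        rw [pow_succ s n]
        generalize (1 + w ^ (n + 1 + 1) + w ^ (2 * (n + 1 + 1))) = v
        generalize algebraMap F4[X] LL (C c) = k
        generalize s = r at *
        field_simp
      rw [h3]
      have h1' : (1 : LL) ∈ OL := (integralClosure A LL).one_mem
      exact mul_OL (mul_OL (pow_OL hk 2) (pow_OL s_OL n))
        (add_OL (add_OL h1' (pow_OL w_OL _)) (pow_OL w_OL _))

theorem h0_mem : h0 ∈ ordLam OL := ⟨h0_Hlam, h0_int⟩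

/-- the functional: the coefficient of `s` in the coefficient of `λ(τ)` -/
noncomputable def phi : MonoidAlgebra LL GG →ₗ[LL] LL where
  toFun h := s⁻¹ * (h.coeff tau + w * h.coeff (sig * tau) + w ^ 2 * h.coeff (sig ^ 2 * tau))
  map_add' := by
    intro x y
    simp only [MonoidAlgebra.coeff_add, Finsupp.add_apply]
    generalize x.coeff tau = a1
    generalize y.coeff tau = a2
    generalize x.coeff (sig * tau) = a3
    generalize y.coeff (sig * tau) = a4
    generalize x.coeff (sig ^ 2 * tau) = a5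
    generalize y.coeff (sig ^ 2 * tau) = a6
    generalize w = v
    generalize s = r
    ring
  map_smul' := by
    intro c x
    simp only [MonoidAlgebra.coeff_smul_apply, smul_eq_mul, RingHom.id_apply]
    generalize x.coeff tau = a1
    generalize x.coeff (sig * tau) = a3
    generalize x.coeff (sig ^ 2 * tau) = a5
    generalize w = v
    generalize s = r
    ring

theorem phi_apply (h : MonoidAlgebra LL GG) : phi h =
    s⁻¹ * (h.coeff tau + w * h.coeff (sig * tau) + w ^ 2 * h.coeff (sig ^ 2 * tau)) := rfl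

theorem conj1 : sig * tau * sig⁻¹ = sig ^ 2 * tau := by
  rw [inv_sig]
  apply ext_gal
  · rw [AlgEquiv.mul_apply, sig2_s, map_mul, map_pow, st_w, st_s, sst_s, w4, ← mul_assoc, pow_two]
  · rw [AlgEquiv.mul_apply, sig2_w, st_w, sst_w]

theorem conj2 : sig * (sig * tau) * sig⁻¹ = tau := by
  rw [mul_assoc sig, conj1, ← mul_assoc]
  apply ext_gal
  · rw [AlgEquiv.mul_apply, tau_s, AlgEquiv.mul_apply, sig2_s, map_mul, map_pow, sig_w, sig_s,
      ← mul_assoc, mul_comm (w ^ 2) w, w_mul_w2, one_mul]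
  · rw [AlgEquiv.mul_apply, tau_w, AlgEquiv.mul_apply, map_pow, sig2_w, map_pow, sig_w]

theorem conj3 : sig * (sig ^ 2 * tau) * sig⁻¹ = sig * tau := by
  have : sig * (sig ^ 2 * tau) * sig⁻¹ = sig * (sig * (sig * tau) * sig⁻¹) := by
    rw [pow_two]; group
  rw [this, conj2]

theorem gform {F : Type} [Field F] {w s a b c d e f p p1 p2 : F} (hs : s ≠ 0)
    (hE : w ^ 2 + w + 1 = 0) (h2 : (2 : F) = 0)
    (hp : p = s * (a + w ^ 2 * b + w * c) + s * (d + w * e + w ^ 2 * f))
    (hp1 : p1 = (w * s) * (a + w ^ 2 * b + w * c) + (w * s) * (f + w * d + w ^ 2 * e))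
    (hp2 : p2 = (w * (w * s)) * (a + w ^ 2 * b + w * c) +
      (w * (w * s)) * (e + w * f + w ^ 2 * d)) :
    p + w * p1 + w ^ 2 * p2 = s ^ 2 * (s⁻¹ * (d + w * e + w ^ 2 * f)) := by
  have hw3 : w ^ 3 = 1 := by linear_combination (w - 1) * hE
  have h3 : s ^ 2 * (s⁻¹ * (d + w * e + w ^ 2 * f)) = s * (d + w * e + w ^ 2 * f) := by
    field_simp
  rw [h3, hp, hp1, hp2]
  linear_combination s * (a + w ^ 2 * b + w * c) * (hE + w * hw3) +
    s * (d * (hw3 + (w ^ 3 + 1) * hw3 + h2) + e * w ^ 4 * h2 + f * w ^ 2 * (h2 + hw3))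

theorem act_s (h : MonoidAlgebra LL GG) : actLam h s =
    s * (h.coeff 1 + w ^ 2 * h.coeff sig + w * h.coeff (sig ^ 2)) +
      s * (h.coeff tau + w * h.coeff (sig * tau) + w ^ 2 * h.coeff (sig ^ 2 * tau)) := by
  rw [actLam_eq, sum_gal, inv_tau, inv_st, inv_sst, inv_sig, inv_sig2, inv_one, tau_s, st_s, sst_s,
    sig_s, sig2_s]
  have : (1 : GG) s = s := rfl
  rw [this]
  generalize h.coeff 1 = a1
  generalize h.coeff sig = a2
  generalize h.coeff (sig ^ 2) = a3
  generalize h.coeff tau = a4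
  generalize h.coeff (sig * tau) = a5
  generalize h.coeff (sig ^ 2 * tau) = a6
  generalize w = v
  generalize s = r
  ring

theorem phi_int (h : MonoidAlgebra LL GG) (hh : h ∈ ordLam OL) : phi h ∈ OL := by
  obtain ⟨hH, hI⟩ := hh
  have hp := hI s s_OL
  have c1 : sig (h.coeff 1) = h.coeff 1 := by rw [hH sig 1]; congr 1; group
  have c2 : sig (h.coeff sig) = h.coeff sig := by rw [hH sig sig]; congr 1; group
  have c3 : sig (h.coeff (sig ^ 2)) = h.coeff (sig ^ 2) := by
    rw [hH sig (sig ^ 2)]; congr 1; rw [pow_two]; group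
  have c4 : sig (h.coeff tau) = h.coeff (sig ^ 2 * tau) := by rw [hH sig tau, conj1]
  have c5 : sig (h.coeff (sig * tau)) = h.coeff tau := by rw [hH sig (sig * tau), conj2]
  have c6 : sig (h.coeff (sig ^ 2 * tau)) = h.coeff (sig * tau) := by
    rw [hH sig (sig ^ 2 * tau), conj3]
  have e0 := act_s h
  have e1 : sig (actLam h s) =
      (w * s) * (h.coeff 1 + w ^ 2 * h.coeff sig + w * h.coeff (sig ^ 2)) +
      (w * s) * (h.coeff (sig ^ 2 * tau) + w * h.coeff tau + w ^ 2 * h.coeff (sig * tau)) := by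
    rw [e0]
    simp only [map_add, map_mul, map_pow, sig_w, sig_s, c1, c2, c3, c4, c5, c6]
  have e2 : sig (sig (actLam h s)) =
      (w * (w * s)) * (h.coeff 1 + w ^ 2 * h.coeff sig + w * h.coeff (sig ^ 2)) +
      (w * (w * s)) * (h.coeff (sig * tau) + w * h.coeff (sig ^ 2 * tau) +
        w ^ 2 * h.coeff tau) := by
    rw [e1]
    simp only [map_add, map_mul, map_pow, sig_w, sig_s, c1, c2, c3, c4, c5, c6]
  have hs := s_ne
  have key := gform s_ne w_eq two_L e0 e1 e2
  rw [← phi_apply] at key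
  have hfix : sig (phi h) = phi h := by
    rw [phi_apply, map_mul, map_inv₀, sig_s]
    simp only [map_add, map_mul, map_pow, sig_w, c4, c5, c6]
    have hw := w_ne
    have hw3 := w3
    generalize h.coeff tau = a4
    generalize h.coeff (sig * tau) = a5
    generalize h.coeff (sig ^ 2 * tau) = a6
    generalize w = v at hw hw3 ⊢
    generalize s = r at hs ⊢
    field_simp
    linear_combination (-a6) * hw3
  refine desc (b := 2) hfix le_rfl ?_
  rw [← key]
  exact add_OL (add_OL hp (mul_OL w_OL (gal_OL sig hp)))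
    (mul_OL (pow_OL w_OL 2) (gal_OL sig (gal_OL sig hp)))

/-- `φ ⊗ φ` -/
noncomputable def phi2 : MonoidAlgebra LL GG ⊗[LL] MonoidAlgebra LL GG →ₗ[LL] LL :=
  (LinearMap.mul' LL LL).comp (TensorProduct.map phi phi)

theorem phi2_tmul (a b : MonoidAlgebra LL GG) : phi2 (a ⊗ₜ b) = phi a * phi b := by
  simp [phi2]

theorem phi2_int (x : MonoidAlgebra LL GG ⊗[LL] MonoidAlgebra LL GG)
    (hx : x ∈ tens (ordLam OL)) : phi2 x ∈ OL := by
  refine AddSubgroup.closure_induction (p := fun x _ => phi2 x ∈ OL) ?_ ?_ ?_ ?_ hx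
  · rintro y ⟨b, hb, c, hc, rfl⟩
    rw [phi2_tmul]
    exact mul_OL (phi_int b hb) (phi_int c hc)
  · rw [map_zero]; exact zero_OL
  · intro x y _ _ hx hy
    rw [map_add]
    exact add_OL hx hy
  · intro x _ hx
    rw [map_neg]
    exact (integralClosure A LL).neg_mem hx

theorem phi2_comul : phi2 (Coalgebra.comul (R := LL) h0) = (s⁻¹) ^ 3 := by
  rw [h0, map_sum, map_sum]
  have h1 : ∀ x : GG, phi2 (Coalgebra.comul (R := LL) (MonoidAlgebra.single x (c0 x))) =
      c0 x * (phi (MonoidAlgebra.single x 1)) ^ 2 := by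
    intro x
    rw [MonoidAlgebra.comul_single]
    have h2 : (Coalgebra.comul (R := LL) (c0 x) : LL ⊗[LL] LL) = (1 : LL) ⊗ₜ (c0 x) := by simp
    rw [h2, TensorProduct.map_tmul, phi2_tmul, MonoidAlgebra.lsingle_apply,
      MonoidAlgebra.lsingle_apply]
    have h3 : (MonoidAlgebra.single x (c0 x) : MonoidAlgebra LL GG) =
        c0 x • MonoidAlgebra.single x 1 := by
      rw [MonoidAlgebra.smul_single, smul_eq_mul, mul_one]
    rw [h3, map_smul, smul_eq_mul]
    ring
  rw [Finset.sum_congr rfl fun x _ => h1 x, sum_gal, c0_one, c0_sig, c0_sig2, c0_tau, c0_st,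
    c0_sst]
  have d1 : tau ≠ sig * tau := fun h => by
    have := congrArg (fun g : GG => g s) h
    simp only [tau_s, st_s] at this
    exact w_ne_one (mul_right_cancel₀ s_ne (by rw [one_mul]; exact this.symm))
  have d2 : tau ≠ sig ^ 2 * tau := fun h => by
    have := congrArg (fun g : GG => g s) h
    simp only [tau_s, sst_s] at this
    exact w2_ne_one (mul_right_cancel₀ s_ne (by rw [one_mul]; exact this.symm))
  have d3 : sig * tau ≠ sig ^ 2 * tau := fun h => by
    have := congrArg (fun g : GG => g s) h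
    simp only [st_s, sst_s] at this
    exact w_dist (mul_right_cancel₀ s_ne this)
  have p1 : phi (MonoidAlgebra.single tau 1) = s⁻¹ := by
    rw [phi_apply, MonoidAlgebra.coeff_single, Finsupp.single_eq_same,
      Finsupp.single_eq_of_ne d1.symm, Finsupp.single_eq_of_ne d2.symm]
    rw [mul_zero, mul_zero, add_zero, add_zero, mul_one]
  have p2 : phi (MonoidAlgebra.single (sig * tau) 1) = s⁻¹ * w := by
    rw [phi_apply, MonoidAlgebra.coeff_single, Finsupp.single_eq_same,
      Finsupp.single_eq_of_ne d1, Finsupp.single_eq_of_ne d3.symm]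
    rw [mul_zero, add_zero, zero_add, mul_one]
  have p3 : phi (MonoidAlgebra.single (sig ^ 2 * tau) 1) = s⁻¹ * w ^ 2 := by
    rw [phi_apply, MonoidAlgebra.coeff_single, Finsupp.single_eq_same,
      Finsupp.single_eq_of_ne d2, Finsupp.single_eq_of_ne d3]
    rw [mul_zero, add_zero, zero_add, mul_one]
  rw [p1, p2, p3]
  have hw3 := w3
  have h2 := two_L
  generalize phi (MonoidAlgebra.single 1 1) = q1
  generalize phi (MonoidAlgebra.single sig 1) = q2
  generalize phi (MonoidAlgebra.single (sig ^ 2) 1) = q3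
  generalize (s⁻¹) = r
  generalize w = v at hw3 ⊢
  linear_combination r ^ 3 * (hw3 + (v ^ 3 + 1) * hw3 + h2)

theorem s_inv_not : (s⁻¹) ^ 3 ∉ OL := by
  intro h
  obtain ⟨p, hp⟩ := mem_OL_iff.1 h
  have h1 : algebraMap F4[X] LL (p * X ^ 3) = algebraMap F4[X] LL 1 := by
    rw [map_mul, map_pow, hp, map_one]
    show (s⁻¹) ^ 3 * s ^ 3 = 1
    rw [← mul_pow, inv_mul_cancel₀ s_ne, one_pow]
  have h2 := al_inj h1
  have h3 := congrArg (fun q => coeff q 0) h2
  simp [mul_coeff_zero] at h3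

/-- `Δ(h₀)` is not in the tensor square of the associated order -/
theorem not_comul : Coalgebra.comul (R := LL) h0 ∉ tens (ordLam OL) := by
  intro h
  have := phi2_int _ h
  rw [phi2_comul] at this
  exact s_inv_not this

end Q191.Hopf
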