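import Pool.Agent.Q191.Hopf.Cl
import Pool.Agent.Q191.Hopf.Gal

/-! The associated orders of the ring of integers of `𝔽₄(s) / 𝔽₂(s³)`. -/

set_option autoImplicit false

open Polynomial TensorProduct

namespace Q191.Hopf

/-- the Galois group -/
abbrev GG : Type := LL ≃ₐ[KK] LL

/-- the ring of integers of `L` -/
def OL : Set LL := (integralClosure A LL : Set LL)

theorem mem_OL_iff {x : LL} : x ∈ OL ↔ ∃ p : F4[X], algebraMap F4[X] LL p = x := by
  constructor
  · intro hx
    have hx' : IsIntegral A x := hx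
    have h2 : IsIntegral F4[X] x := hx'.tower_top
    exact IsIntegrallyClosed.isIntegral_iff.1 h2
  · rintro ⟨p, rfl⟩
    show IsIntegral A _
    have hC : ∀ c : F4, IsIntegral A (algebraMap F4[X] LL (C c)) := by
      intro c
      refine ⟨X ^ 4 - X, ?_, ?_⟩
      · exact monic_X_pow_sub (by rw [degree_X]; norm_num)
      · rw [eval₂_sub, eval₂_pow, eval₂_X, ← map_pow, ← C_pow, pow4, sub_self]
    have hX : IsIntegral A (algebraMap F4[X] LL X) := by
      refine IsIntegral.of_pow (n := 3) (by norm_num) ?_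
      rw [← map_pow, ← iota_X, ← algebraMap_AL]
      exact isIntegral_algebraMap
    induction p using Polynomial.induction_on' with
    | add p q hp hq => rw [map_add]; exact hp.add hq
    | monomial n c =>
      rw [← C_mul_X_pow_eq_monomial, map_mul, map_pow]
      exact (hC c).mul (hX.pow n)

theorem add_OL {x y : LL} (hx : x ∈ OL) (hy : y ∈ OL) : x + y ∈ OL :=
  (integralClosure A LL).add_mem hx hy

theorem mul_OL {x y : LL} (hx : x ∈ OL) (hy : y ∈ OL) : x * y ∈ OL :=
  (integralClosure A LL).mul_mem hx hy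

theorem w_OL : w ∈ OL := mem_OL_iff.2 ⟨_, rfl⟩
theorem s_OL : s ∈ OL := mem_OL_iff.2 ⟨_, rfl⟩
theorem zero_OL : (0 : LL) ∈ OL := (integralClosure A LL).zero_mem
theorem pow_OL {x : LL} (hx : x ∈ OL) (n : ℕ) : x ^ n ∈ OL := (integralClosure A LL).pow_mem hx n

theorem gal_OL (g : GG) {x : LL} (hx : x ∈ OL) : g x ∈ OL := by
  have h : IsIntegral A x := hx
  exact h.map (g.toAlgHom.restrictScalars A)

theorem pow_om_ne {n b : ℕ} (hn : n < b) (hb : b ≤ 2) : om ^ n ≠ om ^ b := by
  intro h
  have hb' : b = 1 ∨ b = 2 := by omega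
  rcases hb' with rfl | rfl
  · have hn' : n = 0 := by omega
    subst hn'
    rw [pow_zero, pow_one] at h
    exact om_ne_one h.symm
  · have hn' : n = 0 ∨ n = 1 := by omega
    rcases hn' with rfl | rfl
    · rw [pow_zero] at h
      have : om = 0 := by linear_combination om_eq + h - two_eq
      exact om_ne_zero this
    · rw [pow_one] at h
      have : om * (om - 1) = 0 := by linear_combination -h
      rcases mul_eq_zero.1 this with h3 | h3
      · exact om_ne_zero h3
      · exact om_ne_one (sub_eq_zero.1 h3)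

/-- Descent: a `σ`-invariant `y` with `s^b y` integral, `b ≤ 2`, is integral. -/
theorem desc {y : LL} (hy : sig y = y) {b : ℕ} (hb : b ≤ 2) (h : s ^ b * y ∈ OL) : y ∈ OL := by
  obtain ⟨p, hp⟩ := mem_OL_iff.1 h
  have h1 : sigP p = C (om ^ b) * p := by
    apply al_inj
    rw [← sig_al, hp, map_mul, map_pow, sig_s, hy, map_mul, hp, C_pow, map_pow]
    show (w * s) ^ b * y = w ^ b * (s ^ b * y)
    ring
  have h2 : X ^ b ∣ p := by
    rw [X_pow_dvd_iff]
    intro n hn
    have h3 := congrArg (fun q => coeff q n) h1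
    simp only [sigP_coeff, coeff_C_mul] at h3
    have h4 : p.coeff n * (om ^ n - om ^ b) = 0 := by linear_combination h3
    rcases mul_eq_zero.1 h4 with h5 | h5
    · exact h5
    · exact absurd (sub_eq_zero.1 h5) (pow_om_ne hn hb)
  obtain ⟨q, rfl⟩ := h2
  rw [map_mul, map_pow] at hp
  have : algebraMap F4[X] LL q = y := mul_left_cancel₀ (pow_ne_zero b s_ne) hp
  exact mem_OL_iff.2 ⟨q, this⟩

theorem three_L : (3 : LL) = 1 := by linear_combination two_L

noncomputable instance : Fintype GG := Fintype.ofFinite _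

/-- the enumeration `σ^i τ^j` of the Galois group -/
noncomputable def enum (x : Fin 3 × Fin 2) : GG := sig ^ (x.1 : ℕ) * tau ^ (x.2 : ℕ)

theorem sig2_s : (sig ^ 2) s = w ^ 2 * s := by
  rw [pow_two, AlgEquiv.mul_apply, sig_s, map_mul, sig_w, sig_s]; ring

theorem sig2_w : (sig ^ 2) w = w := by
  rw [pow_two, AlgEquiv.mul_apply, sig_w, sig_w]

theorem sign_s (n : ℕ) : (sig ^ n) s = w ^ n * s := by
  induction n with
  | zero => rw [pow_zero, pow_zero, one_mul]; rfl
  | succ n ih =>
    rw [pow_succ', AlgEquiv.mul_apply, ih, map_mul, map_pow, sig_w, sig_s, pow_succ, mul_assoc]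

theorem sign_w (n : ℕ) : (sig ^ n) w = w := by
  induction n with
  | zero => rw [pow_zero]; rfl
  | succ n ih => rw [pow_succ', AlgEquiv.mul_apply, ih, sig_w]

theorem taun_s (n : ℕ) : (tau ^ n) s = s := by
  induction n with
  | zero => rw [pow_zero]; rfl
  | succ n ih => rw [pow_succ', AlgEquiv.mul_apply, ih, tau_s]

theorem taun_w (n : ℕ) : (tau ^ n) w = w ^ (2 ^ n) := by
  induction n with
  | zero => rw [pow_zero, pow_zero, pow_one]; rfl
  | succ n ih => rw [pow_succ', AlgEquiv.mul_apply, ih, map_pow, tau_w, ← pow_mul, pow_succ']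

theorem enum_s (x : Fin 3 × Fin 2) : enum x s = w ^ (x.1 : ℕ) * s := by
  rw [enum, AlgEquiv.mul_apply, taun_s, sign_s]

theorem enum_w (x : Fin 3 × Fin 2) : enum x w = w ^ (2 ^ (x.2 : ℕ)) := by
  rw [enum, AlgEquiv.mul_apply, taun_w, map_pow, sign_w]

theorem w2_ne_one : w ^ 2 ≠ 1 := by
  intro h
  have h1 : w = 1 := by linear_combination w3 - w * h
  exact w_ne_one h1

theorem enum_bij : Function.Bijective enum := by
  constructor
  · rintro ⟨i, j⟩ ⟨i', j'⟩ h
    have h1 : w ^ (i : ℕ) = w ^ (i' : ℕ) := by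
      have := congrArg (fun g : GG => g s) h
      simp only [enum_s] at this
      exact mul_right_cancel₀ s_ne this
    have h2 : w ^ (2 ^ (j : ℕ)) = w ^ (2 ^ (j' : ℕ)) := by
      have := congrArg (fun g : GG => g w) h
      simpa only [enum_w] using this
    have a1 := w_ne_one
    have a2 := w2_ne_one
    have a3 := w_dist
    ext
    · fin_cases i <;> fin_cases i' <;> simp_all [eq_comm]
    · fin_cases j <;> fin_cases j' <;> simp_all [eq_comm]
  · intro g
    rcases gal_list g with h | h | h | h | h | h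
    · exact ⟨(0, 0), by rw [h]; simp [enum]⟩
    · exact ⟨(1, 0), by rw [h]; simp [enum]⟩
    · exact ⟨(2, 0), by rw [h]; simp [enum]⟩
    · exact ⟨(0, 1), by rw [h]; simp [enum]⟩
    · exact ⟨(1, 1), by rw [h]; simp [enum]⟩
    · exact ⟨(2, 1), by rw [h]; simp [enum]⟩

theorem sum_gal {M : Type} [AddCommMonoid M] (f : GG → M) :
    ∑ g, f g = f 1 + f tau + (f sig + f (sig * tau)) + (f (sig ^ 2) + f (sig ^ 2 * tau)) := by
  rw [← enum_bij.sum_comp, Fintype.sum_prod_type, Fin.sum_univ_three, Fin.sum_univ_two,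
    Fin.sum_univ_two, Fin.sum_univ_two]
  simp [enum]

end Q191.Hopf
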